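import Mathlib

/-! # Piece LA3 (abstract matrix estimate) -/

open Matrix

namespace Pool.Agent.KW

universe u v

namespace Key

namespace LA3

section Spec

variable {ι : Type*} [Fintype ι]

/-- quadratic form of a matrix -/
noncomputable def quad (B : Matrix ι ι ℂ) (f : ι → ℂ) : ℝ := (star f ⬝ᵥ (B *ᵥ f)).re

/-- square of the norm -/
noncomputable def nsq (f : ι → ℂ) : ℝ := ∑ p, ‖f p‖ ^ 2

theorem nsq_nonneg (f : ι → ℂ) : 0 ≤ nsq f := Finset.sum_nonneg fun _ _ => sq_nonneg _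

theorem sum_eq_quad (B : Matrix ι ι ℂ) (f : ι → ℂ) :
    (∑ p, ∑ q, star (f p) * B p q * f q).re = quad B f := by
  simp only [quad, dotProduct, mulVec, Finset.mul_sum, mul_assoc, Pi.star_apply]

theorem quad_one [DecidableEq ι] (f : ι → ℂ) : quad (1 : Matrix ι ι ℂ) f = nsq f := by
  simp only [quad, one_mulVec, dotProduct, nsq, Pi.star_apply, Complex.re_sum]
  refine Finset.sum_congr rfl fun p _ => ?_
  rw [← Complex.normSq_eq_norm_sq, ← Complex.ofReal_re (Complex.normSq (f p)),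
    Complex.normSq_eq_conj_mul_self]
  rfl

theorem quad_sub (B C : Matrix ι ι ℂ) (f : ι → ℂ) : quad (B - C) f = quad B f - quad C f := by
  simp only [quad, sub_mulVec, dotProduct_sub, Complex.sub_re]

variable [DecidableEq ι]

/-- the matrix with eigenvalues `g` in the basis `U` -/
noncomputable def sp (U : Matrix ι ι ℂ) (g : ι → ℝ) : Matrix ι ι ℂ :=
  U * diagonal (fun i => ((g i : ℝ) : ℂ)) * Uᴴ

theorem exists_sp {A : Matrix ι ι ℂ} (hA : A.IsHermitian) :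
    ∃ (U : Matrix ι ι ℂ) (l : ι → ℝ), Uᴴ * U = 1 ∧ U * Uᴴ = 1 ∧ A = sp U l := by
  refine ⟨(hA.eigenvectorUnitary : Matrix ι ι ℂ), hA.eigenvalues, ?_, ?_, ?_⟩
  · exact Unitary.coe_star_mul_self _
  · exact Unitary.coe_mul_star_self _
  · exact hA.spectral_theorem

variable {U : Matrix ι ι ℂ}

theorem sp_mul (hU : Uᴴ * U = 1) (g h : ι → ℝ) : sp U g * sp U h = sp U (fun i => g i * h i) := by
  unfold sp
  calc U * diagonal (fun i => ((g i : ℝ) : ℂ)) * Uᴴ * (U * diagonal (fun i => ((h i : ℝ) : ℂ)) * Uᴴ)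
      = U * diagonal (fun i => ((g i : ℝ) : ℂ)) * (Uᴴ * U) *
        diagonal (fun i => ((h i : ℝ) : ℂ)) * Uᴴ := by simp only [Matrix.mul_assoc]
    _ = _ := by
      rw [hU, Matrix.mul_one, Matrix.mul_assoc U, diagonal_mul_diagonal]
      simp only [Complex.ofReal_mul]

theorem sp_one (hU : U * Uᴴ = 1) : sp U (fun _ => 1) = 1 := by
  unfold sp
  simp [hU]

theorem sp_sub (g h : ι → ℝ) : sp U g - sp U h = sp U (fun i => g i - h i) := by
  unfold sp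
  rw [← Matrix.sub_mul, ← Matrix.mul_sub, diagonal_sub]
  simp only [Complex.ofReal_sub]

theorem sp_pow (hU : Uᴴ * U = 1) (hU' : U * Uᴴ = 1) (g : ι → ℝ) (k : ℕ) :
    sp U g ^ k = sp U (fun i => g i ^ k) := by
  induction k with
  | zero => simp only [pow_zero, sp_one hU']
  | succ k ih =>
    rw [pow_succ, ih, sp_mul hU]
    simp only [pow_succ]

theorem sp_herm (g : ι → ℝ) : (sp U g).IsHermitian := by
  unfold sp
  apply isHermitian_mul_mul_conjTranspose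
  rw [isHermitian_diagonal_iff]
  intro i
  exact Complex.conj_ofReal _

theorem mulVec_sp (hU : Uᴴ * U = 1) (g : ι → ℝ) (f : ι → ℂ) :
    Uᴴ *ᵥ (sp U g *ᵥ f) = fun i => (g i : ℂ) * (Uᴴ *ᵥ f) i := by
  unfold sp
  rw [mulVec_mulVec, ← Matrix.mul_assoc, ← Matrix.mul_assoc, hU, Matrix.one_mul, ← mulVec_mulVec]
  ext i
  rw [mulVec_diagonal]

theorem quad_sp (g : ι → ℝ) (f : ι → ℂ) :
    quad (sp U g) f = ∑ i, g i * ‖(Uᴴ *ᵥ f) i‖ ^ 2 := by
  have h1 : star f ⬝ᵥ (sp U g *ᵥ f) =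
      star (Uᴴ *ᵥ f) ⬝ᵥ (diagonal (fun i => ((g i : ℝ) : ℂ)) *ᵥ (Uᴴ *ᵥ f)) := by
    unfold sp
    rw [Matrix.mul_assoc, ← mulVec_mulVec, ← mulVec_mulVec, dotProduct_mulVec, star_mulVec,
      conjTranspose_conjTranspose]
  rw [quad, h1, dotProduct, Complex.re_sum]
  refine Finset.sum_congr rfl fun i _ => ?_
  rw [mulVec_diagonal, Pi.star_apply]
  have h2 : star ((Uᴴ *ᵥ f) i) * ((g i : ℂ) * (Uᴴ *ᵥ f) i) =
      ((g i * ‖(Uᴴ *ᵥ f) i‖ ^ 2 : ℝ) : ℂ) := by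
    push_cast
    rw [← Complex.ofReal_pow, ← Complex.normSq_eq_norm_sq, Complex.normSq_eq_conj_mul_self]
    change (starRingEnd ℂ) ((Uᴴ *ᵥ f) i) * _ = _
    ring
  rw [h2, Complex.ofReal_re]

theorem nsq_conj (hU : U * Uᴴ = 1) (f : ι → ℂ) : nsq (Uᴴ *ᵥ f) = nsq f := by
  rw [← quad_one f, ← sp_one hU, quad_sp]
  simp [nsq]

theorem nsq_sp (hU : Uᴴ * U = 1) (hU' : U * Uᴴ = 1) (g : ι → ℝ) (f : ι → ℂ) :
    nsq (sp U g *ᵥ f) = ∑ i, g i ^ 2 * ‖(Uᴴ *ᵥ f) i‖ ^ 2 := by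
  rw [← nsq_conj hU', mulVec_sp hU]
  simp only [nsq, norm_mul, Complex.norm_real, Real.norm_eq_abs, mul_pow, sq_abs]

theorem quad_sp_sp (hU : Uᴴ * U = 1) (g h : ι → ℝ) (f : ι → ℂ) :
    quad (sp U g) (sp U h *ᵥ f) = ∑ i, g i * h i ^ 2 * ‖(Uᴴ *ᵥ f) i‖ ^ 2 := by
  rw [quad_sp, mulVec_sp hU]
  simp only [norm_mul, Complex.norm_real, Real.norm_eq_abs, mul_pow, sq_abs, mul_assoc]

/-- test vectors -/
theorem exists_test (hU : Uᴴ * U = 1) (i : ι) : ∃ f : ι → ℂ, Uᴴ *ᵥ f = Pi.single i 1 :=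
  ⟨U *ᵥ Pi.single i 1, by rw [mulVec_mulVec, hU, one_mulVec]⟩

theorem quad_test {f : ι → ℂ} {i : ι} (hf : Uᴴ *ᵥ f = Pi.single i 1) (g : ι → ℝ) :
    quad (sp U g) f = g i := by
  rw [quad_sp, hf, Finset.sum_eq_single i]
  · simp
  · intro j _ hj
    rw [Pi.single_eq_of_ne hj]
    simp
  · intro h
    exact absurd (Finset.mem_univ i) h

theorem nonneg_of_quad (hU : Uᴴ * U = 1) {g : ι → ℝ} (h : ∀ f, 0 ≤ quad (sp U g) f) (i : ι) :
    0 ≤ g i := by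
  obtain ⟨f, hf⟩ := exists_test hU i
  rw [← quad_test hf g]
  exact h f

theorem le_one_of_quad (hU : Uᴴ * U = 1) (hU' : U * Uᴴ = 1) {g : ι → ℝ}
    (h : ∀ f, quad (sp U g) f ≤ nsq f) (i : ι) : g i ≤ 1 := by
  obtain ⟨f, hf⟩ := exists_test hU i
  have h1 : nsq f = 1 := by
    rw [← quad_one f, ← sp_one hU']
    exact quad_test hf _
  rw [← quad_test hf g, ← h1]
  exact h f

end Spec

/-! ### scalar inequalities -/

theorem scalar_ratio {κ : ℝ} (hκ0 : 0 < κ) (hκ1 : κ ≤ 1) (t : ℕ) :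
    (1 - κ) ^ t / (1 - κ / 4) ^ (2 * t) ≤ (1 - κ / 2) ^ t := by
  have h1 : 0 < 1 - κ / 4 := by linarith
  rw [div_le_iff₀ (by positivity), pow_mul, ← mul_pow]
  apply pow_le_pow_left₀ (by linarith)
  nlinarith [sq_nonneg κ, mul_nonneg hκ0.le hκ0.le, mul_nonneg (mul_nonneg hκ0.le hκ0.le)
    (sub_nonneg.2 hκ1)]

theorem scalar_spec {κ : ℝ} (hκ0 : 0 < κ) (hκ1 : κ ≤ 1) (t : ℕ) {a : ℝ} (ha0 : 0 ≤ a)
    (ha1 : a ≤ 1) : κ / 4 * (1 - ((1 - a) / (1 - κ / 4)) ^ (2 * t)) ≤ a := by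
  have h1 : 0 < 1 - κ / 4 := by linarith
  have h3 : 0 ≤ (1 - a) / (1 - κ / 4) := div_nonneg (by linarith) h1.le
  have h2 : 0 ≤ ((1 - a) / (1 - κ / 4)) ^ (2 * t) := pow_nonneg h3 _
  by_cases h : κ / 4 ≤ a
  · nlinarith
  · push Not at h
    have h4 : 1 ≤ (1 - a) / (1 - κ / 4) := by
      rw [le_div_iff₀ h1]
      linarith
    have h5 : 1 ≤ ((1 - a) / (1 - κ / 4)) ^ (2 * t) := one_le_pow₀ h4
    nlinarith

theorem scalar_quarter {m : ℝ} (hm : 0 ≤ m) : m * (1 - m / (1 + m)) ^ 2 ≤ 1 / 4 := by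
  have h1 : 0 < 1 + m := by linarith
  have h2 : 1 - m / (1 + m) = 1 / (1 + m) := by field_simp; ring
  rw [h2, div_pow, one_pow, mul_one_div, div_le_iff₀ (by positivity)]
  nlinarith [sq_nonneg (m - 1)]

/-! ### the diagonal of `R` -/

section Diag

variable {ι : Type*} [Fintype ι] [DecidableEq ι]

theorem diag_entry (B : Matrix ι ι ℂ) (r : ι) : (B r r).re = quad B (Pi.single r 1) := by
  simp [quad, mulVec_single, dotProduct, Pi.star_apply, Pi.single_apply]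

theorem col_eq (B : Matrix ι ι ℂ) (r : ι) : (fun p => B p r) = B *ᵥ Pi.single r 1 := by
  ext p
  simp

theorem nsq_single (r : ι) : nsq (Pi.single r (1 : ℂ)) = 1 := by
  rw [nsq, Finset.sum_eq_single r]
  · simp
  · intro j _ hj
    rw [Pi.single_eq_of_ne hj]
    simp
  · intro h
    exact absurd (Finset.mem_univ r) h

theorem moment_le {U : Matrix ι ι ℂ} (hU' : U * Uᴴ = 1) {l : ι → ℝ}
    (hl0 : ∀ i, 0 ≤ l i) (hl1 : ∀ i, l i ≤ 1) {κ : ℝ} (hκ1 : κ ≤ 1) (t : ℕ) (f : ι → ℂ)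
    (hf : nsq f = 1)
    (h : ∀ j < t, κ * ∑ i, ((1 - l i) ^ j) ^ 2 * ‖(Uᴴ *ᵥ f) i‖ ^ 2 ≤
      ∑ i, l i * ((1 - l i) ^ j) ^ 2 * ‖(Uᴴ *ᵥ f) i‖ ^ 2) :
    ∑ i, ((1 - l i) ^ t) ^ 2 * ‖(Uᴴ *ᵥ f) i‖ ^ 2 ≤ (1 - κ) ^ t := by
  induction t with
  | zero =>
    simp only [pow_zero, one_pow, one_mul]
    have := nsq_conj hU' f
    rw [hf] at this
    exact this.le
  | succ t ih =>
    have h1 := ih fun j hj => h j (Nat.lt_succ_of_lt hj)
    have h2 := h t (Nat.lt_succ_self t)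
    have h3 : ∑ i, ((1 - l i) ^ (t + 1)) ^ 2 * ‖(Uᴴ *ᵥ f) i‖ ^ 2 ≤
        ∑ i, ((1 - l i) ^ t) ^ 2 * ‖(Uᴴ *ᵥ f) i‖ ^ 2 -
          ∑ i, l i * ((1 - l i) ^ t) ^ 2 * ‖(Uᴴ *ᵥ f) i‖ ^ 2 := by
      rw [← Finset.sum_sub_distrib]
      refine Finset.sum_le_sum fun i _ => ?_
      have h4 : 0 ≤ ((1 - l i) ^ t) ^ 2 * ‖(Uᴴ *ᵥ f) i‖ ^ 2 := by positivity
      have h5 : (1 - l i) ^ 2 ≤ 1 - l i := by nlinarith [hl0 i, hl1 i]
      calc ((1 - l i) ^ (t + 1)) ^ 2 * ‖(Uᴴ *ᵥ f) i‖ ^ 2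
          = (1 - l i) ^ 2 * (((1 - l i) ^ t) ^ 2 * ‖(Uᴴ *ᵥ f) i‖ ^ 2) := by ring
        _ ≤ (1 - l i) * (((1 - l i) ^ t) ^ 2 * ‖(Uᴴ *ᵥ f) i‖ ^ 2) :=
          mul_le_mul_of_nonneg_right h5 h4
        _ = _ := by ring
    have h6 : (1 - κ) * ∑ i, ((1 - l i) ^ t) ^ 2 * ‖(Uᴴ *ᵥ f) i‖ ^ 2 ≤ (1 - κ) * (1 - κ) ^ t :=
      mul_le_mul_of_nonneg_left h1 (by linarith)
    rw [pow_succ']
    linarith

end Diag

/-! ### blocks -/

section Blocks

set_option linter.unusedSectionVars false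

variable {W F : Type u} [Fintype W] [Fintype F] [DecidableEq W] [DecidableEq F]

/-- the part of `f` over `a` -/
def part (f : W × F → ℂ) (a : W) (p : W × F) : ℂ := if p.1 = a then f p else 0

theorem sum_part (f : W × F → ℂ) : ∑ a, part f a = f := by
  ext p
  simp [part]

theorem quad_part (B : Matrix (W × F) (W × F) ℂ) (f : W × F → ℂ) (a : W) :
    quad B (part f a) = quad (Matrix.of fun y z => B (a, y) (a, z)) (fun y => f (a, y)) := by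
  rw [← sum_eq_quad, ← sum_eq_quad, Fintype.sum_prod_type]
  congr 1
  rw [Finset.sum_eq_single a]
  · refine Finset.sum_congr rfl fun y _ => ?_
    rw [Fintype.sum_prod_type, Finset.sum_eq_single a]
    · simp [part]
    · intro b _ hb
      refine Finset.sum_eq_zero fun z _ => ?_
      simp [part, hb]
    · intro h
      exact absurd (Finset.mem_univ a) h
  · intro b _ hb
    refine Finset.sum_eq_zero fun z _ => Finset.sum_eq_zero fun w _ => ?_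
    simp [part, hb]
  · intro h
    exact absurd (Finset.mem_univ a) h

/-- `λ₀ = |W| ∑_a R_{aa}` -/
noncomputable def lam (B : Matrix (W × F) (W × F) ℂ) : Matrix F F ℂ :=
  Matrix.of fun y z => (Fintype.card W : ℂ) * ∑ a, B (a, y) (a, z)

theorem quad_lam (B : Matrix (W × F) (W × F) ℂ) (g : F → ℂ) :
    quad (lam B) g = Fintype.card W * ∑ a, quad (Matrix.of fun y z => B (a, y) (a, z)) g := by
  have h1 : ∀ (C : Matrix F F ℂ), quad C g = (∑ p, ∑ q, star (g p) * C p q * g q).re :=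
    fun C => (sum_eq_quad C g).symm
  simp only [h1, lam, Matrix.of_apply]
  rw [← Complex.re_sum]
  have h2 : (∑ p, ∑ q, star (g p) * ((Fintype.card W : ℂ) * ∑ a, B (a, p) (a, q)) * g q) =
      ((Fintype.card W : ℝ) : ℂ) * ∑ a, ∑ p, ∑ q, star (g p) * B (a, p) (a, q) * g q := by
    have h3 : (∑ a, ∑ p, ∑ q, star (g p) * B (a, p) (a, q) * g q) =
        ∑ p, ∑ q, ∑ a, star (g p) * B (a, p) (a, q) * g q := by
      rw [Finset.sum_comm]
      refine Finset.sum_congr rfl fun p _ => ?_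
      rw [Finset.sum_comm]
    rw [h3, Finset.mul_sum]
    refine Finset.sum_congr rfl fun p _ => ?_
    rw [Finset.mul_sum]
    refine Finset.sum_congr rfl fun q _ => ?_
    rw [Complex.ofReal_natCast, ← Finset.sum_mul, ← Finset.mul_sum]
    ring
  rw [h2, Complex.re_ofReal_mul]

theorem lam_herm {B : Matrix (W × F) (W × F) ℂ} (hB : B.IsHermitian) : (lam B).IsHermitian := by
  ext y z
  have h1 : ∀ a, star (B (a, z) (a, y)) = B (a, y) (a, z) := fun a => hB.apply _ _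
  simp only [lam, conjTranspose_apply, Matrix.of_apply, star_mul', star_sum, h1, star_natCast]

theorem lam_diag_re (B : Matrix (W × F) (W × F) ℂ) (y : F) :
    (lam B y y).re = Fintype.card W * ∑ a, (B (a, y) (a, y)).re := by
  simp only [lam, Matrix.of_apply]
  rw [← Complex.ofReal_natCast, Complex.re_ofReal_mul, Complex.re_sum]

/-- `R ≤ 1 ⊗ λ₀` -/
theorem quad_le_lam {U : Matrix (W × F) (W × F) ℂ} {g : W × F → ℝ} (hg : ∀ i, 0 ≤ g i)
    (f : W × F → ℂ) : quad (sp U g) f ≤ ∑ a, quad (lam (sp U g)) (fun y => f (a, y)) := by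
  have hpos : ∀ f : W × F → ℂ, 0 ≤ quad (sp U g) f := by
    intro f
    rw [quad_sp]
    exact Finset.sum_nonneg fun i _ => mul_nonneg (hg i) (sq_nonneg _)
  have h1 : quad (sp U g) f ≤ Fintype.card W * ∑ a, quad (sp U g) (part f a) := by
    simp only [quad_sp]
    rw [Finset.sum_comm, Finset.mul_sum]
    refine Finset.sum_le_sum fun i _ => ?_
    rw [← Finset.mul_sum, mul_left_comm]
    refine mul_le_mul_of_nonneg_left ?_ (hg i)
    have h2 : (Uᴴ *ᵥ f) i = ∑ a, (Uᴴ *ᵥ part f a) i := by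
      conv_lhs => rw [← sum_part f]
      rw [mulVec_sum, Finset.sum_apply]
    rw [h2]
    calc ‖∑ a, (Uᴴ *ᵥ part f a) i‖ ^ 2 ≤ (∑ a, ‖(Uᴴ *ᵥ part f a) i‖) ^ 2 :=
          pow_le_pow_left₀ (norm_nonneg _) (norm_sum_le _ _) 2
      _ ≤ Fintype.card W * ∑ a, ‖(Uᴴ *ᵥ part f a) i‖ ^ 2 := by
          have := sq_sum_le_card_mul_sum_sq (s := (Finset.univ : Finset W))
            (f := fun a => ‖(Uᴴ *ᵥ part f a) i‖)
          simpa using this
  refine h1.trans ?_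
  rw [Finset.mul_sum]
  refine Finset.sum_le_sum fun a _ => ?_
  rw [quad_lam, quad_part]
  refine mul_le_mul_of_nonneg_left ?_ (by positivity)
  refine Finset.single_le_sum (f := fun b => quad (Matrix.of fun y z => sp U g (b, y) (b, z))
    fun y => f (a, y)) ?_ (Finset.mem_univ a)
  intro b _
  have h3 := hpos (part (fun p : W × F => f (a, p.2)) b)
  rw [quad_part] at h3
  exact h3

theorem quad_lam_nonneg {U : Matrix (W × F) (W × F) ℂ} {g : W × F → ℝ} (hg : ∀ i, 0 ≤ g i)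
    (f : F → ℂ) : 0 ≤ quad (lam (sp U g)) f := by
  rw [quad_lam]
  refine mul_nonneg (by positivity) (Finset.sum_nonneg fun b _ => ?_)
  have h3 : 0 ≤ quad (sp U g) (part (fun p : W × F => f p.2) b) := by
    rw [quad_sp]
    exact Finset.sum_nonneg fun i _ => mul_nonneg (hg i) (sq_nonneg _)
  rw [quad_part] at h3
  exact h3

end Blocks

end LA3

open LA3 in
/-- LA3: an abstract estimate (`L = 1 - A`, `0 ≤ L ≤ 1`, `R = L^(2t) / (1 - κ/4)^(2t)`,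
`λ₀ = |W| ∑_a R_{aa}`, `P₁ = λ₀ (1 + λ₀)⁻¹`) -/
theorem exists_small_diagonal {W F : Type u} [Fintype W] [Fintype F] [DecidableEq W]
    [DecidableEq F] (A : Matrix (W × F) (W × F) ℂ) (hA : A.IsHermitian)
    (h0 : ∀ f : W × F → ℂ, 0 ≤ (∑ p, ∑ q, star (f p) * A p q * f q).re)
    (h1 : ∀ f : W × F → ℂ, (∑ p, ∑ q, star (f p) * A p q * f q).re ≤ ∑ p, ‖f p‖ ^ 2)
    (κ : ℝ) (hκ0 : 0 < κ) (hκ1 : κ ≤ 1) (t : ℕ)
    (hκ : ∀ r : W × F, ∀ j < t, κ * ∑ p, ‖((1 - A) ^ j) p r‖ ^ 2 ≤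
      (∑ p, ∑ q, star (((1 - A) ^ j) p r) * A p q * ((1 - A) ^ j) q r).re) :
    ∃ P₁ : Matrix F F ℂ, P₁.IsHermitian ∧
      (∀ f : F → ℂ, 0 ≤ (∑ y, ∑ z, star (f y) * P₁ y z * f z).re) ∧
      (∀ f : F → ℂ, (∑ y, ∑ z, star (f y) * P₁ y z * f z).re ≤ ∑ y, ‖f y‖ ^ 2) ∧
      (∀ y, (P₁ y y).re ≤ (Fintype.card W : ℝ) ^ 2 * (1 - κ / 2) ^ t) ∧
      ∀ f : W × F → ℂ, κ / 32 * ∑ p, ‖f p‖ ^ 2 -
          2 * ∑ s, (∑ y, ∑ z, star (f (s, y)) * P₁ y z * f (s, z)).re ≤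
        (∑ p, ∑ q, star (f p) * A p q * f q).re := by
  obtain ⟨U, l, hU, hU', rfl⟩ := exists_sp hA
  have h0' : ∀ f, 0 ≤ quad (sp U l) f := fun f => by rw [← sum_eq_quad]; exact h0 f
  have h1' : ∀ f, quad (sp U l) f ≤ nsq f := fun f => by rw [← sum_eq_quad]; exact h1 f
  have hl0 : ∀ i, 0 ≤ l i := nonneg_of_quad hU h0'
  have hl1 : ∀ i, l i ≤ 1 := le_one_of_quad hU hU' h1'
  have hpow : ∀ j : ℕ, (1 - sp U l) ^ j = sp U (fun i => (1 - l i) ^ j) := by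
    intro j
    rw [← sp_one hU', sp_sub, sp_pow hU hU']
  have hc : 0 < 1 - κ / 4 := by linarith
  -- the matrix `R`
  set ρ : W × F → ℝ := fun i => ((1 - l i) / (1 - κ / 4)) ^ (2 * t) with hρ
  have hρ0 : ∀ i, 0 ≤ ρ i := fun i => pow_nonneg (div_nonneg (by linarith [hl1 i]) hc.le) _
  have hRdiag : ∀ r, (sp U ρ r r).re ≤ (1 - κ / 2) ^ t := by
    intro r
    rw [diag_entry, quad_sp]
    have hm := moment_le hU' hl0 hl1 hκ1 t (Pi.single r 1) (nsq_single r) (by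
      intro j hj
      have h2 := hκ r j hj
      have h3 : (fun p => ((1 - sp U l) ^ j) p r) = sp U (fun i => (1 - l i) ^ j) *ᵥ
          Pi.single r 1 := by rw [col_eq, hpow]
      have h4 : ∑ p, ‖((1 - sp U l) ^ j) p r‖ ^ 2 =
          ∑ i, ((1 - l i) ^ j) ^ 2 * ‖(Uᴴ *ᵥ Pi.single r 1) i‖ ^ 2 := by
        rw [← nsq_sp hU hU', ← h3]
        rfl
      have h5 : (∑ p, ∑ q, star (((1 - sp U l) ^ j) p r) * sp U l p q *
          ((1 - sp U l) ^ j) q r).re =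
          ∑ i, l i * ((1 - l i) ^ j) ^ 2 * ‖(Uᴴ *ᵥ Pi.single r 1) i‖ ^ 2 := by
        rw [← quad_sp_sp hU, ← h3, ← sum_eq_quad]
      rw [h4, h5] at h2
      exact h2)
    have h6 : ∑ i, ρ i * ‖(Uᴴ *ᵥ Pi.single r 1) i‖ ^ 2 =
        (∑ i, ((1 - l i) ^ t) ^ 2 * ‖(Uᴴ *ᵥ Pi.single r 1) i‖ ^ 2) / (1 - κ / 4) ^ (2 * t) := by
      rw [Finset.sum_div]
      refine Finset.sum_congr rfl fun i _ => ?_
      simp only [hρ, div_pow]
      rw [show ((1 - l i) ^ t) ^ 2 = (1 - l i) ^ (2 * t) by rw [← pow_mul, mul_comm]]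
      ring
    rw [h6]
    refine (div_le_div_of_nonneg_right hm (by positivity)).trans (scalar_ratio hκ0 hκ1 t)
  -- the matrix `P₁`
  obtain ⟨V, m, hV, hV', hlam⟩ := exists_sp (lam_herm (sp_herm (U := U) ρ))
  have hm0 : ∀ i, 0 ≤ m i := nonneg_of_quad hV fun f => by
    rw [← hlam]; exact quad_lam_nonneg hρ0 f
  set π : F → ℝ := fun i => m i / (1 + m i) with hπ
  have h1m : ∀ i, 0 < 1 + m i := fun i => by linarith [hm0 i]
  have hπ0 : ∀ i, 0 ≤ π i := fun i => div_nonneg (hm0 i) (h1m i).le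
  have hπ1 : ∀ i, π i ≤ 1 := fun i => (div_le_one (h1m i)).2 (by linarith)
  have hπm : ∀ i, π i ≤ m i := fun i => div_le_self (hm0 i) (by linarith [hm0 i])
  refine ⟨sp V π, sp_herm π, ?_, ?_, ?_, ?_⟩
  · intro f
    rw [sum_eq_quad, quad_sp]
    exact Finset.sum_nonneg fun i _ => mul_nonneg (hπ0 i) (sq_nonneg _)
  · intro f
    rw [sum_eq_quad, quad_sp]
    change _ ≤ nsq f
    rw [← nsq_conj hV']
    exact Finset.sum_le_sum fun i _ => mul_le_of_le_one_left (sq_nonneg _) (hπ1 i)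
  · intro y
    have h2 : (sp V π y y).re ≤ (lam (sp U ρ) y y).re := by
      rw [hlam, diag_entry, diag_entry, quad_sp, quad_sp]
      exact Finset.sum_le_sum fun i _ => mul_le_mul_of_nonneg_right (hπm i) (sq_nonneg _)
    refine h2.trans ?_
    rw [lam_diag_re, sq, mul_assoc]
    refine mul_le_mul_of_nonneg_left ?_ (by positivity)
    calc ∑ a, (sp U ρ (a, y) (a, y)).re ≤ ∑ _a : W, (1 - κ / 2) ^ t :=
          Finset.sum_le_sum fun a _ => hRdiag (a, y)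
      _ = _ := by simp
  · intro f
    simp only [sum_eq_quad]
    set f1 : W × F → ℂ := fun p => (sp V π *ᵥ (fun y => f (p.1, y))) p.2 with hf1
    set f0 : W × F → ℂ := fun p => (sp V (fun i => 1 - π i) *ᵥ (fun y => f (p.1, y))) p.2 with hf0
    have hff : ∀ p, f p = f0 p + f1 p := by
      intro p
      simp only [hf0, hf1]
      rw [← Pi.add_apply, ← add_mulVec]
      have : sp V (fun i => 1 - π i) + sp V π = 1 := by
        rw [← sp_one hV', ← sp_sub, sub_add_cancel]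
      rw [this, one_mulVec]
    -- norms
    have hsplit : ∀ g : W × F → ℂ, nsq g = ∑ s, nsq (fun y => g (s, y)) := by
      intro g
      simp only [nsq]
      rw [Fintype.sum_prod_type]
    have hn1 : nsq f1 ≤ ∑ s, quad (sp V π) (fun y => f (s, y)) := by
      rw [hsplit]
      refine Finset.sum_le_sum fun s _ => ?_
      change nsq (sp V π *ᵥ (fun y => f (s, y))) ≤ _
      rw [nsq_sp hV hV', quad_sp]
      refine Finset.sum_le_sum fun i _ => mul_le_mul_of_nonneg_right ?_ (sq_nonneg _)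
      rw [sq]
      exact mul_le_of_le_one_left (hπ0 i) (hπ1 i)
    have hn0 : nsq f / 2 - nsq f1 ≤ nsq f0 := by
      simp only [nsq]
      rw [Finset.sum_div, ← Finset.sum_sub_distrib]
      refine Finset.sum_le_sum fun p _ => ?_
      have h2 : ‖f p‖ ≤ ‖f0 p‖ + ‖f1 p‖ := by rw [hff p]; exact norm_add_le _ _
      have h3 : ‖f p‖ ^ 2 ≤ (‖f0 p‖ + ‖f1 p‖) ^ 2 := pow_le_pow_left₀ (norm_nonneg _) h2 2
      nlinarith [sq_nonneg (‖f0 p‖ - ‖f1 p‖)]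
    have hR0 : quad (sp U ρ) f0 ≤ nsq f / 4 := by
      refine (quad_le_lam hρ0 f0).trans ?_
      rw [hsplit f, Finset.sum_div]
      refine Finset.sum_le_sum fun s _ => ?_
      change quad (lam (sp U ρ)) (sp V (fun i => 1 - π i) *ᵥ (fun y => f (s, y))) ≤ _
      rw [hlam, quad_sp_sp hV, ← nsq_conj hV', nsq, Finset.sum_div]
      refine Finset.sum_le_sum fun i _ => ?_
      have h3 : m i * (1 - π i) ^ 2 ≤ 1 / 4 := scalar_quarter (hm0 i)
      calc m i * (1 - π i) ^ 2 * ‖(Vᴴ *ᵥ fun y => f (s, y)) i‖ ^ 2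
          ≤ 1 / 4 * ‖(Vᴴ *ᵥ fun y => f (s, y)) i‖ ^ 2 :=
            mul_le_mul_of_nonneg_right h3 (sq_nonneg _)
        _ = _ := by ring
    have hA0 : κ / 4 * (nsq f0 - quad (sp U ρ) f0) ≤ quad (sp U l) f0 := by
      rw [← nsq_conj hU' f0, nsq, quad_sp, quad_sp, ← Finset.sum_sub_distrib, Finset.mul_sum]
      refine Finset.sum_le_sum fun i _ => ?_
      have h3 : κ / 4 * (1 - ρ i) ≤ l i := scalar_spec hκ0 hκ1 t (hl0 i) (hl1 i)
      calc κ / 4 * (‖(Uᴴ *ᵥ f0) i‖ ^ 2 - ρ i * ‖(Uᴴ *ᵥ f0) i‖ ^ 2)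
          = κ / 4 * (1 - ρ i) * ‖(Uᴴ *ᵥ f0) i‖ ^ 2 := by ring
        _ ≤ _ := mul_le_mul_of_nonneg_right h3 (sq_nonneg _)
    have hA1 : quad (sp U l) f1 ≤ nsq f1 := h1' f1
    have hA01 : quad (sp U l) f0 ≤ 2 * quad (sp U l) f + 2 * quad (sp U l) f1 := by
      rw [quad_sp, quad_sp, quad_sp, Finset.mul_sum, Finset.mul_sum, ← Finset.sum_add_distrib]
      refine Finset.sum_le_sum fun i _ => ?_
      have h2 : (Uᴴ *ᵥ f0) i = (Uᴴ *ᵥ f) i - (Uᴴ *ᵥ f1) i := by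
        have h3 : f0 = f - f1 := by
          ext p
          rw [Pi.sub_apply, hff p]
          ring
        rw [h3, mulVec_sub, Pi.sub_apply]
      have h3 : ‖(Uᴴ *ᵥ f0) i‖ ≤ ‖(Uᴴ *ᵥ f) i‖ + ‖(Uᴴ *ᵥ f1) i‖ := by
        rw [h2]; exact norm_sub_le _ _
      have h4 : ‖(Uᴴ *ᵥ f0) i‖ ^ 2 ≤ 2 * ‖(Uᴴ *ᵥ f) i‖ ^ 2 + 2 * ‖(Uᴴ *ᵥ f1) i‖ ^ 2 := by
        have h5 := pow_le_pow_left₀ (norm_nonneg _) h3 2
        nlinarith [sq_nonneg (‖(Uᴴ *ᵥ f) i‖ - ‖(Uᴴ *ᵥ f1) i‖)]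
      calc l i * ‖(Uᴴ *ᵥ f0) i‖ ^ 2
          ≤ l i * (2 * ‖(Uᴴ *ᵥ f) i‖ ^ 2 + 2 * ‖(Uᴴ *ᵥ f1) i‖ ^ 2) :=
            mul_le_mul_of_nonneg_left h4 (hl0 i)
        _ = _ := by ring
    have hnf : 0 ≤ nsq f := nsq_nonneg f
    have hnf1 : 0 ≤ nsq f1 := nsq_nonneg f1
    change κ / 32 * nsq f - _ ≤ _
    have h10 : κ / 4 * (nsq f / 4 - nsq f1) ≤ quad (sp U l) f0 := by
      refine le_trans ?_ hA0
      refine mul_le_mul_of_nonneg_left ?_ (by linarith)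
      linarith
    nlinarith [mul_nonneg hκ0.le hnf1, mul_le_mul_of_nonneg_right hκ1 hnf1]

end Key

end Pool.Agent.KW
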